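import Pool.Agent.Helper42.LS.Defs

namespace Pool.Agent.Helper42.LS

lemma rk_log (x y : ℝ) (hy : 0 < y) (h : y ≤ 12 * x) :
    Real.log y ≤ Real.log 12 + Real.log x := by
  have hx : 0 < x := by linarith
  rw [← Real.log_mul (by norm_num) hx.ne']
  exact Real.log_le_log hy h

/-- comparison of `M₃ = (Q + R) / D` -/
lemma rk_lo (q D M₃ N x c : ℝ) (hq : 0 < q) (hM₃ : 0 < M₃) (h : N ≤ M₃ * D) (hD : D ≤ c * q)
    (hN : q * x ≤ N) : x ≤ c * M₃ := by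
  have h1 : M₃ * D ≤ M₃ * (c * q) := mul_le_mul_of_nonneg_left hD hM₃.le
  have h2 : q * x ≤ q * (c * M₃) := by linarith
  exact le_of_mul_le_mul_left h2 hq

lemma rk_hi (q D M₃ N x c d : ℝ) (hq : 0 < q) (hM₃ : 0 < M₃) (h : M₃ * D ≤ N) (hD : d * q ≤ D)
    (hN : N ≤ q * (c * x)) : M₃ * d ≤ c * x := by
  have h1 : M₃ * (d * q) ≤ M₃ * D := mul_le_mul_of_nonneg_left hD hM₃.le
  have h2 : q * (M₃ * d) ≤ q * (c * x) := by linarith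
  exact le_of_mul_le_mul_left h2 hq

lemma rk_Dlo (K M₁ M₂ m₁ m₂ c₁ c₂ : ℝ) (hK : 0 < K) (hm₁ : 0 ≤ m₁) (hm₂ : 0 ≤ m₂)
    (e₂ : M₂ ^ 2 = m₂ ^ 2 + K ^ 2) (hM₁ : 0 < M₁) (hM₂ : 0 < M₂)
    (hc₁ : 2 ≤ c₁) (hc₂ : 2 ≤ c₂) (hc₂'' : M₂ ≤ c₂ + 1) (hB : 2 * K ≤ M₂) :
    43 / 100 * (M₁ * M₂ * (1 + M₂)) ≤ M₁ * m₂ * c₂ + M₂ * m₁ * c₁ := by
  have hm2 : 3 / 4 * M₂ ^ 2 ≤ m₂ ^ 2 := by
    have j1 : (2 * K) * (2 * K) ≤ M₂ * M₂ := mul_le_mul hB hB (by positivity) hM₂.le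
    linarith
  have hm2' : 86 / 100 * M₂ ≤ m₂ := by
    have j2 : 0 ≤ M₂ ^ 2 := sq_nonneg M₂
    have : (86 / 100 * M₂) ^ 2 ≤ m₂ ^ 2 := by linarith
    exact (abs_le_of_sq_le_sq' this hm₂).2
  have hc2 : (1 + M₂) / 2 ≤ c₂ := by
    rcases le_total M₂ 3 with h | h <;> linarith
  have h1 : M₁ * (86 / 100 * M₂) ≤ M₁ * m₂ := mul_le_mul_of_nonneg_left hm2' hM₁.le
  have h2 : M₁ * (86 / 100 * M₂) * ((1 + M₂) / 2) ≤ M₁ * m₂ * c₂ :=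
    mul_le_mul h1 hc2 (by linarith) (by positivity)
  have h3 : 0 ≤ M₂ * m₁ * c₁ := by positivity
  linarith

lemma rk_Dhi (M₁ M₂ m₁ m₂ c₁ c₂ : ℝ) (hm₁ : m₁ ≤ M₁) (hm₂ : m₂ ≤ M₂) (hM₁ : 0 < M₁)
    (hM₂ : 0 < M₂) (hc₁ : 2 ≤ c₁) (hc₁' : c₁ ≤ 2 + M₁) (hc₂ : 2 ≤ c₂)
    (hc₂' : c₂ ≤ 2 + M₂) (hle : M₁ ≤ M₂) :
    M₁ * m₂ * c₂ + M₂ * m₁ * c₁ ≤ 4 * (M₁ * M₂ * (1 + M₂)) := by
  have h1 : M₁ * m₂ * c₂ ≤ M₁ * M₂ * (2 + M₂) :=
    mul_le_mul (mul_le_mul_of_nonneg_left hm₂ hM₁.le) (by linarith) (by linarith) (by positivity)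
  have h2 : M₂ * m₁ * c₁ ≤ M₂ * M₁ * (2 + M₂) :=
    mul_le_mul (mul_le_mul_of_nonneg_left hm₁ hM₂.le) (by linarith) (by linarith) (by positivity)
  have h4 : 0 < M₁ * M₂ * M₂ := by positivity
  linarith

lemma rk_A (K θ M₁ M₂ m₁ m₂ c₁ c₂ M₃ : ℝ) (hK : 0 < K) (hK1 : K ≤ 1 / 10)
    (hθ : 3 ≤ θ) (hm₁ : 0 ≤ m₁) (hm₂ : 0 ≤ m₂) (hmM₁ : m₁ ≤ M₁) (hmM₂ : m₂ ≤ M₂)
    (hc₁ : 2 ≤ c₁) (hc₁' : c₁ ≤ 2 + M₁) (hc₂ : 2 ≤ c₂) (hc₂' : c₂ ≤ 2 + M₂)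
    (hM₃p : 0 < M₃)
    (hM₃ : M₃ * (M₁ * m₂ * c₂ + M₂ * m₁ * c₁) = M₁ ^ 2 * M₂ ^ 2 + θ * K ^ 2)
    (hle : M₁ ≤ M₂) (hB : M₂ < 2 * K) : 1 ≤ 12 * M₃ := by
  have hDle : M₁ * m₂ * c₂ + M₂ * m₁ * c₁ ≤ 18 * K ^ 2 := by
    have h1 : M₁ * m₂ ≤ (2 * K) * (2 * K) :=
      mul_le_mul (by linarith) (by linarith) hm₂ (by linarith)
    have h2 : M₂ * m₁ ≤ (2 * K) * (2 * K) :=
      mul_le_mul (by linarith) (by linarith) hm₁ (by linarith)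
    have h3 : M₁ * m₂ * c₂ ≤ ((2 * K) * (2 * K)) * (22 / 10) :=
      mul_le_mul h1 (by linarith) (by linarith) (by positivity)
    have h4 : M₂ * m₁ * c₁ ≤ ((2 * K) * (2 * K)) * (22 / 10) :=
      mul_le_mul h2 (by linarith) (by linarith) (by positivity)
    have h5 : 0 < K ^ 2 := by positivity
    linarith
  have h1 : 3 * K ^ 2 ≤ M₃ * (M₁ * m₂ * c₂ + M₂ * m₁ * c₁) := by
    rw [hM₃]
    have j1 : 0 ≤ M₁ ^ 2 * M₂ ^ 2 := by positivity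
    have j2 : 3 * K ^ 2 ≤ θ * K ^ 2 := mul_le_mul_of_nonneg_right hθ (sq_nonneg K)
    linarith
  have h2 : M₃ * (M₁ * m₂ * c₂ + M₂ * m₁ * c₁) ≤ M₃ * (18 * K ^ 2) :=
    mul_le_mul_of_nonneg_left hDle hM₃p.le
  have h3 : 0 < K ^ 2 := by positivity
  have h4 : K ^ 2 * 3 ≤ K ^ 2 * (18 * M₃) := by linarith
  have h5 := le_of_mul_le_mul_left h4 h3
  -- 3 ≤ 18 M₃ gives M₃ ≥ 1 / 6
  linarith

/-- multiplicative part of case (i) -/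
lemma rk_i (K θ M₁ M₂ D M₃ : ℝ) (hK : 0 < K) (hθ : 3 ≤ θ) (hθ' : θ ≤ 4) (hKM₁ : K ≤ M₁)
    (hM₁ : 0 < M₁) (hM₂ : 0 < M₂) (hM₃p : 0 < M₃)
    (hM₃ : M₃ * D = M₁ ^ 2 * M₂ ^ 2 + θ * K ^ 2)
    (hDlo : 43 / 100 * (M₁ * M₂ * (1 + M₂)) ≤ D) (hDhi : D ≤ 4 * (M₁ * M₂ * (1 + M₂)))
    (h1 : 1 ≤ M₂) : M₁ ≤ 12 * M₃ ∧ M₃ ≤ 12 * M₁ := by
  have hq : 0 < M₁ * M₂ * M₂ := by positivity
  have hm : 0 < M₁ * M₂ := by positivity
  have hmm : M₁ * M₂ ≤ M₁ * M₂ * M₂ := by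
    have := mul_le_mul_of_nonneg_left h1 hm.le
    linarith
  have hK2 : 0 < K ^ 2 := by positivity
  have hθ2 : 0 ≤ θ * K ^ 2 := by positivity
  have j1 : K ^ 2 ≤ M₁ ^ 2 := pow_le_pow_left₀ hK.le hKM₁ 2
  have j2 : M₁ ^ 2 ≤ M₁ ^ 2 * M₂ ^ 2 := by
    have j3 : (1 : ℝ) ≤ M₂ ^ 2 := one_le_pow₀ h1
    have := mul_le_mul_of_nonneg_left j3 (sq_nonneg M₁)
    linarith
  have j4 : θ * K ^ 2 ≤ 4 * K ^ 2 := mul_le_mul_of_nonneg_right hθ' hK2.le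
  constructor
  · have := rk_lo (M₁ * M₂ * M₂) D M₃ (M₁ ^ 2 * M₂ ^ 2) M₁ 8 hq hM₃p (by linarith) (by linarith)
      (by linarith)
    linarith
  · have := rk_hi (M₁ * M₂ * M₂) D M₃ (5 * (M₁ ^ 2 * M₂ ^ 2)) M₁ 5 (43 / 100) hq hM₃p
      (by linarith) (by linarith) (by linarith)
    linarith

lemma rk_ii (K θ q D M₃ : ℝ) (hK : 0 < K) (hθ : 3 ≤ θ) (hθ' : θ ≤ 4) (hq : 0 < q)
    (hM₃p : 0 < M₃) (hM₃ : M₃ * D = q ^ 2 + θ * K ^ 2)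
    (hDlo : 43 / 100 * q ≤ D) (hDhi : D ≤ 8 * q) (h1 : K ≤ q) : q ≤ 12 * M₃ ∧ M₃ ≤ 12 * q := by
  have hK2 : 0 < K ^ 2 := by positivity
  have hθ2 : 0 ≤ θ * K ^ 2 := by positivity
  have j1 : K ^ 2 ≤ q ^ 2 := pow_le_pow_left₀ hK.le h1 2
  have j4 : θ * K ^ 2 ≤ 4 * K ^ 2 := mul_le_mul_of_nonneg_right hθ' hK2.le
  constructor
  · have := rk_lo q D M₃ (q ^ 2) q 8 hq hM₃p (by linarith) (by linarith) (by linarith)
    linarith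
  · have := rk_hi q D M₃ (5 * q ^ 2) q 5 (43 / 100) hq hM₃p (by linarith) (by linarith)
      (by linarith)
    linarith

lemma rk_iii (K θ q r D M₃ : ℝ) (hK : 0 < K) (hθ : 3 ≤ θ) (hθ' : θ ≤ 4) (hq : 0 < q)
    (hM₃p : 0 < M₃) (hM₃ : M₃ * D = q ^ 2 + θ * K ^ 2) (hr : r * q = K ^ 2) (hr0 : 0 < r)
    (hDlo : 43 / 100 * q ≤ D) (hDhi : D ≤ 8 * q) (h1 : q ≤ K) : r ≤ 12 * M₃ ∧ M₃ ≤ 12 * r := by
  have hK2 : 0 < K ^ 2 := by positivity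
  have j1 : q ^ 2 ≤ K ^ 2 := pow_le_pow_left₀ hq.le h1 2
  have j3 : 3 * K ^ 2 ≤ θ * K ^ 2 := mul_le_mul_of_nonneg_right hθ hK2.le
  have j4 : θ * K ^ 2 ≤ 4 * K ^ 2 := mul_le_mul_of_nonneg_right hθ' hK2.le
  have j5 : 0 ≤ q ^ 2 := sq_nonneg q
  constructor
  · have := rk_lo q D M₃ (3 * K ^ 2) (3 * r) 8 hq hM₃p (by linarith) (by linarith) (by linarith)
    linarith
  · have := rk_hi q D M₃ (5 * K ^ 2) r 5 (43 / 100) hq hM₃p (by linarith) (by linarith)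
      (by linarith)
    linarith

lemma rk_wlog (K θ φ M₁ M₂ m₁ m₂ c₁ c₂ M₃ : ℝ) (hK : 0 < K) (hK1 : K ≤ 1 / 10)
    (hθ : 3 ≤ θ) (hθ' : θ ≤ 4) (hφ : 4 ≤ φ) (hφ' : φ ≤ 5) (hm₁ : 0 ≤ m₁) (hm₂ : 0 ≤ m₂)
    (e₁ : M₁ ^ 2 = m₁ ^ 2 + K ^ 2) (e₂ : M₂ ^ 2 = m₂ ^ 2 + K ^ 2) (hM₁ : 0 < M₁) (hM₂ : 0 < M₂)
    (hc₁ : 2 ≤ c₁) (hc₁' : c₁ ≤ 2 + M₁) (hc₂ : 2 ≤ c₂)
    (hc₂' : c₂ ≤ 2 + M₂) (hc₂'' : M₂ ≤ c₂ + 1) (hD : 0 < M₁ * m₂ * c₂ + M₂ * m₁ * c₁)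
    (hM₃ : M₃ * (M₁ * m₂ * c₂ + M₂ * m₁ * c₁) = M₁ ^ 2 * M₂ ^ 2 + θ * K ^ 2)
    (s : ℝ) (hs : s = 1 ∨ s = -1) (hs1 : m₁ ^ 2 * m₂ ^ 2 < φ * K ^ 2 → s = -1)
    (hs2 : φ * K ^ 2 < m₁ ^ 2 * m₂ ^ 2 → s = 1) (hle : M₁ ≤ M₂) :
    ∃ m : ℤ, |s * max 0 (-Real.log M₃) - max 0 (-Real.log M₁) - max 0 (-Real.log M₂)
      - m * (-2 * Real.log K)| ≤ 3 * Real.log 12 := by
  have l12 : 0 < Real.log 12 := Real.log_pos (by norm_num)
  have hK2 : 0 < K ^ 2 := by positivity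
  have hKM₁ : K ≤ M₁ := by
    apply (abs_le_of_sq_le_sq' _ hM₁.le).2
    linarith [sq_nonneg m₁]
  have hKM₂ : K ≤ M₂ := by linarith
  have hmM₁ : m₁ ≤ M₁ := by
    apply (abs_le_of_sq_le_sq' _ hM₁.le).2
    linarith
  have hmM₂ : m₂ ≤ M₂ := by
    apply (abs_le_of_sq_le_sq' _ hM₂.le).2
    linarith
  have lK : Real.log K ≤ 0 := Real.log_nonpos hK.le (by linarith)
  have lKM₁ : Real.log K ≤ Real.log M₁ := Real.log_le_log hK hKM₁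
  have lKM₂ : Real.log K ≤ Real.log M₂ := Real.log_le_log hK hKM₂
  have hM₃p : 0 < M₃ := by
    by_contra hneg
    have h1 : M₃ * (M₁ * m₂ * c₂ + M₂ * m₁ * c₁) ≤ 0 :=
      mul_nonpos_of_nonpos_of_nonneg (not_lt.mp hneg) hD.le
    rw [hM₃] at h1
    have : 0 < M₁ ^ 2 * M₂ ^ 2 + θ * K ^ 2 := by positivity
    linarith
  rcases lt_or_ge M₂ (2 * K) with hB | hB
  · -- both small
    have hM3 := rk_A K θ M₁ M₂ m₁ m₂ c₁ c₂ M₃ hK hK1 hθ hm₁ hm₂ hmM₁ hmM₂ hc₁ hc₁' hc₂ hc₂'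
      hM₃p hM₃ hle hB
    have lM3 := rk_log M₃ 1 one_pos hM3
    rw [Real.log_one] at lM3
    have lM2 := rk_log K M₂ hM₂ (by linarith)
    have lM1 := rk_log K M₁ hM₁ (by linarith)
    refine ⟨-1, ?_⟩
    have a1 : max 0 (-Real.log M₁) ≤ -Real.log K := max_le (by linarith) (by linarith)
    have a2 : max 0 (-Real.log M₂) ≤ -Real.log K := max_le (by linarith) (by linarith)
    have b1 : -Real.log M₁ ≤ max 0 (-Real.log M₁) := le_max_right _ _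
    have b2 : -Real.log M₂ ≤ max 0 (-Real.log M₂) := le_max_right _ _
    have a3 : max 0 (-Real.log M₃) ≤ Real.log 12 := max_le (by linarith) (by linarith)
    have b3 : 0 ≤ max 0 (-Real.log M₃) := le_max_left _ _
    clear * - lM1 lM2 a1 a2 b1 b2 a3 b3 hs l12
    rw [abs_le]
    push_cast
    rcases hs with rfl | rfl <;> constructor <;> linarith
  · have hDlo := rk_Dlo K M₁ M₂ m₁ m₂ c₁ c₂ hK hm₁ hm₂ e₂ hM₁ hM₂ hc₁ hc₂ hc₂'' hB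
    have hDhi := rk_Dhi M₁ M₂ m₁ m₂ c₁ c₂ hmM₁ hmM₂ hM₁ hM₂ hc₁ hc₁' hc₂ hc₂' hle
    obtain ⟨D, hDdef⟩ : ∃ D, D = M₁ * m₂ * c₂ + M₂ * m₁ * c₁ := ⟨_, rfl⟩
    rw [← hDdef] at hM₃ hDlo hDhi hD
    rcases le_total 1 M₂ with h1 | h1
    · -- M₂ ≥ 1
      have lM2 : 0 ≤ Real.log M₂ := Real.log_nonneg h1
      have a2 : max 0 (-Real.log M₂) = 0 := max_eq_left (by linarith)
      obtain ⟨r1, r2⟩ := rk_i K θ M₁ M₂ D M₃ hK hθ hθ' hKM₁ hM₁ hM₂ hM₃p hM₃ hDlo hDhi h1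
      have l1 := rk_log M₃ M₁ hM₁ r1
      have l2 := rk_log M₁ M₃ hM₃p r2
      have d1 : max 0 (-Real.log M₃) ≤ max 0 (-Real.log M₁) + Real.log 12 :=
        max_le (by linarith [le_max_left 0 (-Real.log M₁)]) (by linarith [le_max_right 0 (-Real.log M₁)])
      have d2 : max 0 (-Real.log M₁) ≤ max 0 (-Real.log M₃) + Real.log 12 :=
        max_le (by linarith [le_max_left 0 (-Real.log M₃)]) (by linarith [le_max_right 0 (-Real.log M₃)])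
      rcases hs with rfl | rfl
      · refine ⟨0, ?_⟩
        clear * - a2 d1 d2 l12
        rw [a2, abs_le]
        push_cast
        constructor <;> linarith
      · have hle2 : m₁ ^ 2 * m₂ ^ 2 ≤ φ * K ^ 2 := by
          by_contra hcon
          have := hs2 (not_le.mp hcon)
          norm_num at this
        have hM1K : M₁ ≤ 12 * K := by
          have i1 : K ^ 2 ≤ (1 / 10) ^ 2 := pow_le_pow_left₀ hK.le hK1 2
          have i2 : (1 : ℝ) ≤ M₂ ^ 2 := one_le_pow₀ h1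
          have j1 : (3 / 4 : ℝ) ≤ m₂ ^ 2 := by linarith
          have j2 : m₁ ^ 2 * (3 / 4) ≤ m₁ ^ 2 * m₂ ^ 2 := mul_le_mul_of_nonneg_left j1 (sq_nonneg _)
          have i3 : φ * K ^ 2 ≤ 5 * K ^ 2 := mul_le_mul_of_nonneg_right hφ' hK2.le
          have j3 : M₁ ^ 2 ≤ (12 * K) ^ 2 := by linarith
          exact (abs_le_of_sq_le_sq' j3 (by positivity)).2
        have l3 := rk_log K M₁ hM₁ hM1K
        have a1 : max 0 (-Real.log M₁) ≤ -Real.log K := max_le (by linarith) (by linarith)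
        have b1 : -Real.log M₁ ≤ max 0 (-Real.log M₁) := le_max_right _ _
        refine ⟨-1, ?_⟩
        clear * - a2 d1 d2 l12 l3 a1 b1
        rw [a2, abs_le]
        push_cast
        constructor <;> linarith
    · -- M₂ ≤ 1
      have hM₁1 : M₁ ≤ 1 := by linarith
      have a1 : max 0 (-Real.log M₁) = -Real.log M₁ :=
        max_eq_right (by linarith [Real.log_nonpos hM₁.le hM₁1])
      have a2 : max 0 (-Real.log M₂) = -Real.log M₂ :=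
        max_eq_right (by linarith [Real.log_nonpos hM₂.le h1])
      obtain ⟨q, hq⟩ : ∃ q, q = M₁ * M₂ := ⟨_, rfl⟩
      have hq0 : 0 < q := by rw [hq]; positivity
      have lq : Real.log q = Real.log M₁ + Real.log M₂ := by
        rw [hq, Real.log_mul hM₁.ne' hM₂.ne']
      have hq1 : q ≤ 1 := by
        rw [hq]
        calc M₁ * M₂ ≤ 1 * 1 := mul_le_mul hM₁1 h1 hM₂.le one_pos.le
          _ = 1 := one_mul 1
      have hMM : M₁ ^ 2 * M₂ ^ 2 = q ^ 2 := by rw [hq]; ring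
      rw [← hq] at hDlo hDhi
      have hqM : 0 < q * M₂ := by positivity
      have hqM' : q * M₂ ≤ q := by
        have := mul_le_mul_of_nonneg_left h1 hq0.le
        linarith
      have hDlo' : 43 / 100 * q ≤ D := by linarith
      have hDhi' : D ≤ 8 * q := by linarith
      rw [hMM] at hM₃
      have hmm : m₁ ^ 2 * m₂ ^ 2 = q ^ 2 - K ^ 2 * (M₁ ^ 2 + M₂ ^ 2) + K ^ 4 := by
        rw [← hMM, e₁, e₂]
        ring
      have lq1 := Real.log_nonpos hq0.le hq1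
      rcases le_total K q with h2 | h2
      · obtain ⟨r1, r2⟩ := rk_ii K θ q D M₃ hK hθ hθ' hq0 hM₃p hM₃ hDlo' hDhi' h2
        have l1 := rk_log M₃ q hq0 r1
        have l2 := rk_log q M₃ hM₃p r2
        have d1 : max 0 (-Real.log M₃) ≤ -Real.log q + Real.log 12 :=
          max_le (by linarith) (by linarith)
        have d2 : -Real.log q - Real.log 12 ≤ max 0 (-Real.log M₃) := by
          linarith [le_max_right 0 (-Real.log M₃)]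
        rcases hs with rfl | rfl
        · refine ⟨0, ?_⟩
          clear * - a1 a2 d1 d2 l12 lq
          rw [a1, a2, abs_le]
          push_cast
          constructor <;> linarith
        · have hle2 : m₁ ^ 2 * m₂ ^ 2 ≤ φ * K ^ 2 := by
            by_contra hcon
            have := hs2 (not_le.mp hcon)
            norm_num at this
          have hqK : q ≤ 12 * K := by
            have i1 : M₁ ^ 2 ≤ 1 := pow_le_one₀ hM₁.le hM₁1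
            have i2 : M₂ ^ 2 ≤ 1 := pow_le_one₀ hM₂.le h1
            have j2 : K ^ 2 * (M₁ ^ 2 + M₂ ^ 2) ≤ K ^ 2 * 2 :=
              mul_le_mul_of_nonneg_left (by linarith) hK2.le
            have j3 : 0 ≤ K ^ 4 := by positivity
            have i3 : φ * K ^ 2 ≤ 5 * K ^ 2 := mul_le_mul_of_nonneg_right hφ' hK2.le
            have j4 : q ^ 2 ≤ (12 * K) ^ 2 := by linarith
            exact (abs_le_of_sq_le_sq' j4 (by positivity)).2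
          have l3 := rk_log K q hq0 hqK
          have l4 : Real.log K ≤ Real.log q := Real.log_le_log hK h2
          refine ⟨-1, ?_⟩
          clear * - a1 a2 d1 d2 l12 lq l3 l4
          rw [a1, a2, abs_le]
          push_cast
          constructor <;> linarith
      · -- q ≤ K
        have hs' : s = -1 := by
          apply hs1
          have j1 : q ^ 2 ≤ K ^ 2 := pow_le_pow_left₀ hq0.le h2 2
          have j2 : K ^ 4 ≤ K ^ 2 * (M₁ ^ 2 + M₂ ^ 2) := by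
            have i1 : K ^ 2 ≤ M₁ ^ 2 + M₂ ^ 2 := by linarith [sq_nonneg m₁, sq_nonneg m₂]
            have := mul_le_mul_of_nonneg_left i1 hK2.le
            linarith
          have i3 : 4 * K ^ 2 ≤ φ * K ^ 2 := mul_le_mul_of_nonneg_right hφ hK2.le
          linarith
        subst hs'
        obtain ⟨r, hr⟩ : ∃ r, r = K ^ 2 / q := ⟨_, rfl⟩
        have hr0 : 0 < r := by rw [hr]; positivity
        have hrq : r * q = K ^ 2 := by rw [hr]; field_simp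
        have lr : Real.log r = 2 * Real.log K - Real.log q := by
          rw [hr, Real.log_div (by positivity) hq0.ne', Real.log_pow]
          norm_num
        have hr1 : r ≤ 1 := by
          rw [hr, div_le_one hq0, hq]
          have := mul_le_mul hKM₁ hKM₂ hK.le hM₁.le
          linarith
        obtain ⟨r1, r2⟩ := rk_iii K θ q r D M₃ hK hθ hθ' hq0 hM₃p hM₃ hrq hr0 hDlo' hDhi' h2
        have l1 := rk_log M₃ r hr0 r1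
        have l2 := rk_log r M₃ hM₃p r2
        have lr1 := Real.log_nonpos hr0.le hr1
        have d1 : max 0 (-Real.log M₃) ≤ -Real.log r + Real.log 12 :=
          max_le (by linarith) (by linarith)
        have d2 : -Real.log r - Real.log 12 ≤ max 0 (-Real.log M₃) := by
          linarith [le_max_right 0 (-Real.log M₃)]
        refine ⟨-1, ?_⟩
        clear * - a1 a2 d1 d2 l12 lq lr
        rw [a1, a2, abs_le]
        push_cast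
        constructor <;> linarith

theorem st_RK : ST_RK := by
  refine ⟨3 * Real.log 12, ?_⟩
  intro K θ φ M₁ M₂ m₁ m₂ c₁ c₂ M₃ hK hK1 hθ hθ' hφ hφ' hm₁ hm₂ e₁ e₂ hM₁ hM₂ hc₁ hc₁' hc₁''
    hc₂ hc₂' hc₂'' hD hM₃ s hs hs1 hs2
  rcases le_total M₁ M₂ with h | h
  · exact rk_wlog K θ φ M₁ M₂ m₁ m₂ c₁ c₂ M₃ hK hK1 hθ hθ' hφ hφ' hm₁ hm₂ e₁ e₂ hM₁ hM₂ hc₁
      hc₁' hc₂ hc₂' hc₂'' hD hM₃ s hs hs1 hs2 h
  · have hD' : 0 < M₂ * m₁ * c₁ + M₁ * m₂ * c₂ := by rw [add_comm]; exact hD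
    have hM₃' : M₃ * (M₂ * m₁ * c₁ + M₁ * m₂ * c₂) = M₂ ^ 2 * M₁ ^ 2 + θ * K ^ 2 := by
      rw [add_comm (M₂ * m₁ * c₁), mul_comm (M₂ ^ 2)]; exact hM₃
    obtain ⟨m, hm⟩ := rk_wlog K θ φ M₂ M₁ m₂ m₁ c₂ c₁ M₃ hK hK1 hθ hθ' hφ hφ' hm₂ hm₁ e₂ e₁ hM₂
      hM₁ hc₂ hc₂' hc₁ hc₁' hc₁'' hD' hM₃' s hs (by rw [mul_comm]; exact hs1)
      (by rw [mul_comm (m₂ ^ 2)]; exact hs2) h
    refine ⟨m, ?_⟩
    rw [show s * max 0 (-Real.log M₃) - max 0 (-Real.log M₁) - max 0 (-Real.log M₂)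
      - m * (-2 * Real.log K) = s * max 0 (-Real.log M₃) - max 0 (-Real.log M₂)
      - max 0 (-Real.log M₁) - m * (-2 * Real.log K) by ring]
    exact hm

end Pool.Agent.Helper42.LS
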