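import Pool.Agent.Helper42.LS.Defs

open Filter Topology

namespace Pool.Agent.Helper42.LS

lemma rx_cast (A B : ℚ) (x y : ℕ → ℚ) (h : GSeq (0 : ℚ) A B x y) :
    GSeq (0 : ℝ) (A : ℝ) (B : ℝ) (fun k => (x k : ℝ)) (fun k => (y k : ℝ)) := by
  constructor
  · intro k hk
    have := h.curve k hk
    exact_mod_cast this
  · intro k hk
    have := h.yne k hk
    exact_mod_cast this
  · intro k l hl hk
    have := h.xne k l hl hk
    exact_mod_cast this
  · intro k hk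
    have := h.dblx k hk
    exact_mod_cast this
  · intro k hk
    have := h.dbly k hk
    exact_mod_cast this
  · intro k l hl hk
    have := h.addx k l hl hk
    exact_mod_cast this
  · intro k l hl hk
    have := h.addy k l hl hk
    exact_mod_cast this
  · intro k l hl hk
    have := h.subx k l hl hk
    exact_mod_cast this
  · intro k l hl hk
    have := h.suby k l hl hk
    exact_mod_cast this

lemma rx_dbl {F : Type} [Field F] (a b c : F) (X Y : ℕ → F) (h : GSeq a b c X Y) :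
    GSeq a b c (fun k => X (2 * k)) (fun k => Y (2 * k)) := by
  constructor
  · intro k hk
    exact h.curve (2 * k) (by omega)
  · intro k hk
    exact h.yne (2 * k) (by omega)
  · intro k l hl hk
    exact h.xne (2 * k) (2 * l) (by omega) (by omega)
  · intro k hk
    exact h.dblx (2 * k) (by omega)
  · intro k hk
    exact h.dbly (2 * k) (by omega)
  · intro k l hl hk
    have := h.addx (2 * k) (2 * l) (by omega) (by omega)
    simp only [mul_add]
    exact this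
  · intro k l hl hk
    have := h.addy (2 * k) (2 * l) (by omega) (by omega)
    simp only [mul_add]
    exact this
  · intro k l hl hk
    have := h.subx (2 * k) (2 * l) (by omega) (by omega)
    simp only [Nat.mul_sub]
    exact this
  · intro k l hl hk
    have := h.suby (2 * k) (2 * l) (by omega) (by omega)
    simp only [Nat.mul_sub]
    exact this

/-- affine change of variables `X = μ Z + e`, `Y = ν W` -/
lemma rx_norm (a b e μ ν : ℝ) (X Y : ℕ → ℝ) (h : GSeq (0 : ℝ) a b X Y) (hμ : μ ≠ 0) (hν : ν ≠ 0)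
    (hνμ : ν ^ 2 = μ ^ 3) (he : e ^ 3 + a * e + b = 0) (hμe : μ ^ 2 = 3 * e ^ 2 + a) :
    GSeq (3 * e / μ) 1 0 (fun k => (X k - e) / μ) (fun k => Y k / ν) := by
  have key : ∀ lam : ℝ, (lam * (μ / ν)) ^ 2 = lam ^ 2 / μ := by
    intro lam
    rw [mul_pow, div_pow, hνμ]
    field_simp
  have sl1 : ∀ k l : ℕ, X k ≠ X l → (Y k / ν - Y l / ν) / ((X k - e) / μ - (X l - e) / μ) =
      ((Y k - Y l) / (X k - X l)) * (μ / ν) := by
    intro k l hkl
    have h1 : X k - X l ≠ 0 := sub_ne_zero.mpr hkl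
    have h2 : (X k - e) / μ - (X l - e) / μ = (X k - X l) / μ := by ring
    rw [h2]
    field_simp
  have sl2 : ∀ k l : ℕ, X k ≠ X l → (Y k / ν + Y l / ν) / ((X k - e) / μ - (X l - e) / μ) =
      ((Y k + Y l) / (X k - X l)) * (μ / ν) := by
    intro k l hkl
    have h1 : X k - X l ≠ 0 := sub_ne_zero.mpr hkl
    have h2 : (X k - e) / μ - (X l - e) / μ = (X k - X l) / μ := by ring
    rw [h2]
    field_simp
  have sl3 : ∀ k : ℕ, Y k ≠ 0 → (3 * ((X k - e) / μ) ^ 2 + 2 * (3 * e / μ) * ((X k - e) / μ) + 1) /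
      (2 * (Y k / ν)) = ((3 * X k ^ 2 + 2 * 0 * X k + a) / (2 * Y k)) * (μ / ν) := by
    intro k hk
    have h2 : 3 * ((X k - e) / μ) ^ 2 + 2 * (3 * e / μ) * ((X k - e) / μ) + 1 =
        (3 * X k ^ 2 + a) / μ ^ 2 := by
      field_simp
      linear_combination hμe
    rw [h2]
    have h3 : μ / ν = ν / μ ^ 2 := by
      field_simp
      linear_combination -hνμ
    rw [h3]
    field_simp
    ring
  constructor
  · intro k hk
    have h1 := h.curve k hk
    rw [div_pow, hνμ, h1]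
    field_simp
    linear_combination he - (X k - e) * hμe
  · intro k hk
    exact div_ne_zero (h.yne k hk) hν
  · intro k l hl hk heq
    apply h.xne k l hl hk
    change (X k - e) / μ = (X l - e) / μ at heq
    have h2 := (div_left_inj' hμ).mp heq
    linarith
  · intro k hk
    rw [sl3 k (h.yne k hk), key, h.dblx k hk]
    field_simp
    ring
  · intro k hk
    rw [sl3 k (h.yne k hk), h.dbly k hk]
    field_simp
    ring
  · intro k l hl hk
    rw [sl1 k l (h.xne k l hl hk), key, h.addx k l hl hk]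
    field_simp
    ring
  · intro k l hl hk
    rw [sl1 k l (h.xne k l hl hk), h.addy k l hl hk]
    field_simp
    ring
  · intro k l hl hk
    rw [sl2 k l (h.xne k l hl hk), key, h.subx k l hl hk]
    field_simp
    ring
  · intro k l hl hk
    rw [sl2 k l (h.xne k l hl hk), h.suby k l hl hk]
    field_simp
    ring

/-- duplication on `w ^ 2 = z ^ 3 + a z ^ 2 + z` -/
lemma rx_dup (a : ℝ) (z w : ℕ → ℝ) (h : GSeq a 1 0 z w) (k : ℕ) (hk : 1 ≤ k) :
    4 * w k ^ 2 * z (2 * k) = (z k ^ 2 - 1) ^ 2 := by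
  have h1 := h.curve k hk
  have h2 := h.dblx k hk
  have h3 := h.yne k hk
  rw [h2, div_pow]
  field_simp
  linear_combination (-16 * (a + 2 * z k)) * h1

lemma rx_pos (a : ℝ) (z w : ℕ → ℝ) (h : GSeq a 1 0 z w) (k : ℕ) (hk : 1 ≤ k) :
    0 < z (2 * k) := by
  have h1 := rx_dup a z w h k hk
  have h3 : 0 < 4 * w k ^ 2 := by
    have := h.yne k hk
    positivity
  have h4 : z (2 * k) ≠ 0 := by
    intro h0
    have h5 := h.curve (2 * k) (by omega)
    rw [h0] at h5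
    apply h.yne (2 * k) (by omega)
    have : w (2 * k) ^ 2 = 0 := by rw [h5]; ring
    exact pow_eq_zero_iff (two_ne_zero) |>.mp this
  have h6 : 0 ≤ z (2 * k) := by
    by_contra hneg
    have : 4 * w k ^ 2 * z (2 * k) < 0 := mul_neg_of_pos_of_neg h3 (not_le.mp hneg)
    rw [h1] at this
    linarith [sq_nonneg (z k ^ 2 - 1)]
  exact lt_of_le_of_ne h6 (Ne.symm h4)

lemma rx_gt1 (κ : ℝ) (hκ : 0 < κ) (z w : ℕ → ℝ) (h : GSeq (-(2 + κ)) 1 0 z w) (k : ℕ)
    (hk : 1 ≤ k) : 1 < z (2 * k) := by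
  have h1 := rx_dup _ z w h k hk
  have hc := h.curve k hk
  have h3 : 0 < 4 * w k ^ 2 := by
    have := h.yne k hk
    positivity
  obtain ⟨r, hr⟩ : ∃ r, r = √(κ * (4 + κ)) := ⟨_, rfl⟩
  have hr2 : r ^ 2 = κ * (4 + κ) := by
    rw [hr]
    exact Real.sq_sqrt (by positivity)
  have hr0 : 0 ≤ r := by rw [hr]; exact Real.sqrt_nonneg _
  obtain ⟨ζ, hζ⟩ : ∃ ζ, ζ = ((2 + κ) + r) / 2 := ⟨_, rfl⟩
  have hζ1 : 1 < ζ := by rw [hζ]; linarith
  have hζ2 : ζ ^ 2 - (2 + κ) * ζ + 1 = 0 := by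
    rw [hζ]
    linear_combination (1 / 4) * hr2
  have key : 4 * w k ^ 2 * (z (2 * k) - ζ) = (z k ^ 2 - 2 * ζ * z k + 1) ^ 2 := by
    linear_combination h1 - 4 * ζ * hc - 4 * z k ^ 2 * hζ2
  by_contra hneg
  have h4 : z (2 * k) - ζ < 0 := by linarith [not_lt.mp hneg]
  have : 4 * w k ^ 2 * (z (2 * k) - ζ) < 0 := mul_neg_of_pos_of_neg h3 h4
  rw [key] at this
  linarith [sq_nonneg (z k ^ 2 - 2 * ζ * z k + 1)]

lemma rx_B2 (t : ℝ) : B2 t ≤ 1 / 6 := by
  unfold B2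
  have h1 := Int.fract_nonneg t
  have h2 := (Int.fract_lt_one t).le
  nlinarith

lemma rx_B20 : B2 0 = 1 / 6 := by
  unfold B2
  simp

lemma rx_j (a e μ κ D : ℝ) (hμ : 0 < μ) (hμe : μ ^ 2 = 3 * e ^ 2 + a) (hκ : |κ| ≤ 1 / 100)
    (hκ0 : κ ≠ 0) (he : 3 * |e| = (2 + κ) * μ) (hD : D = -(κ * (4 + κ)) * μ ^ 6) :
    1 / |κ| ≤ |6912 * a ^ 3 / D| ∧ |6912 * a ^ 3 / D| ≤ 100 / |κ| := by
  have hκ1 := abs_le.mp hκ
  have h1 : 9 * e ^ 2 = (2 + κ) ^ 2 * μ ^ 2 := by
    have : (3 * |e|) ^ 2 = ((2 + κ) * μ) ^ 2 := by rw [he]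
    rw [mul_pow, sq_abs] at this
    linarith
  have h2 : a = -(μ ^ 2 * (1 + 4 * κ + κ ^ 2)) / 3 := by
    linear_combination (-1) * hμe - h1 / 3
  have h3 : 6912 * a ^ 3 / D = 256 * (1 + 4 * κ + κ ^ 2) ^ 3 / (κ * (4 + κ)) := by
    rw [hD, h2]
    have : 4 + κ ≠ 0 := by linarith
    field_simp
    ring
  have h4 : 0 < 4 + κ := by linarith
  have h5 : 96 / 100 ≤ 1 + 4 * κ + κ ^ 2 := by nlinarith [sq_nonneg κ]
  have h6 : 1 + 4 * κ + κ ^ 2 ≤ 105 / 100 := by nlinarith [sq_nonneg κ]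
  have h7 : (96 / 100 : ℝ) ^ 3 ≤ (1 + 4 * κ + κ ^ 2) ^ 3 := pow_le_pow_left₀ (by norm_num) h5 3
  have h8 : (1 + 4 * κ + κ ^ 2) ^ 3 ≤ (105 / 100 : ℝ) ^ 3 := pow_le_pow_left₀ (by linarith) h6 3
  have hκa : 0 < |κ| := abs_pos.mpr hκ0
  rw [h3, abs_div, abs_mul κ, abs_of_pos h4, abs_of_pos (by linarith : 0 < 256 * (1 + 4 * κ + κ ^ 2) ^ 3)]
  constructor
  · rw [div_le_div_iff₀ hκa (by positivity)]
    have : |κ| * (4 + κ) ≤ |κ| * 5 := mul_le_mul_of_nonneg_left (by linarith) hκa.le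
    have : |κ| * 5 ≤ |κ| * (256 * (1 + 4 * κ + κ ^ 2) ^ 3) :=
      mul_le_mul_of_nonneg_left (by linarith) hκa.le
    linarith
  · rw [div_le_div_iff₀ (by positivity) hκa]
    have : |κ| * 3 ≤ |κ| * (4 + κ) := mul_le_mul_of_nonneg_left (by linarith) hκa.le
    have : |κ| * (256 * (1 + 4 * κ + κ ^ 2) ^ 3) ≤ |κ| * 300 :=
      mul_le_mul_of_nonneg_left (by linarith) hκa.le
    linarith

/-- numerical comparison of the main terms -/
lemma rx_main (a e μ κ D : ℝ) (hμ : 0 < μ) (hμe : μ ^ 2 = 3 * e ^ 2 + a) (hκ : |κ| ≤ 1 / 100)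
    (hκ0 : κ ≠ 0) (he : 3 * |e| = (2 + κ) * μ) (hD : D = -(κ * (4 + κ)) * μ ^ 6) (t : ℝ) :
    1 / 6 * Real.log |D| + max 0 (Real.log |6912 * a ^ 3 / D|) * B2 t ≤
      Real.log μ + (-Real.log |κ|) * (B2 t - 1 / 6) + (Real.log 5 + Real.log 100) := by
  obtain ⟨j1, j2⟩ := rx_j a e μ κ D hμ hμe hκ hκ0 he hD
  have hκ1 := abs_le.mp hκ
  have hκa : 0 < |κ| := abs_pos.mpr hκ0
  have h4 : 0 < 4 + κ := by linarith
  have hlD : Real.log |D| = Real.log |κ| + Real.log (4 + κ) + 6 * Real.log μ := by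
    rw [hD, neg_mul, abs_neg, abs_mul, abs_mul, abs_of_pos h4, abs_of_pos (by positivity : 0 < μ ^ 6),
      Real.log_mul (by positivity) (by positivity), Real.log_mul (by positivity) (by positivity),
      Real.log_pow]
    norm_num
  have l5 : Real.log (4 + κ) ≤ Real.log 5 := Real.log_le_log h4 (by linarith)
  have l5' : 0 ≤ Real.log 5 := Real.log_nonneg (by norm_num)
  have l100 : 0 ≤ Real.log 100 := Real.log_nonneg (by norm_num)
  have lk : Real.log |κ| ≤ 0 := Real.log_nonpos hκa.le (by linarith)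
  have m1 : -Real.log |κ| ≤ Real.log |6912 * a ^ 3 / D| := by
    have := Real.log_le_log (by positivity) j1
    rw [one_div, Real.log_inv] at this
    exact this
  have m2 : Real.log |6912 * a ^ 3 / D| ≤ Real.log 100 - Real.log |κ| := by
    have h0 : 0 < |6912 * a ^ 3 / D| := lt_of_lt_of_le (by positivity) j1
    have := Real.log_le_log h0 j2
    rw [Real.log_div (by norm_num) hκa.ne'] at this
    exact this
  have m3 : max 0 (Real.log |6912 * a ^ 3 / D|) = Real.log |6912 * a ^ 3 / D| :=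
    max_eq_right (by linarith)
  rw [m3, hlD]
  have hb := rx_B2 t
  have m4 : (Real.log |6912 * a ^ 3 / D| + Real.log |κ|) * B2 t ≤
      (Real.log |6912 * a ^ 3 / D| + Real.log |κ|) * (1 / 6) :=
    mul_le_mul_of_nonneg_left hb (by linarith)
  linarith

lemma rx_up (x Z e μ : ℝ) (hμ : 0 < μ) (hZ : Z = (x - e) / μ) (U : ℝ)
    (hU : U ≤ Real.log (max Z 1)) :
    U + Real.log μ ≤ Real.log (max |x| 1) + (Real.log (max ((1 + |e|) / μ) 1) + Real.log μ) := by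
  have h1 : 0 < max |x| 1 := lt_of_lt_of_le one_pos (le_max_right _ _)
  have h2 : 0 < max ((1 + |e|) / μ) 1 := lt_of_lt_of_le one_pos (le_max_right _ _)
  have h3 : max Z 1 ≤ max |x| 1 * max ((1 + |e|) / μ) 1 := by
    apply max_le
    · rw [hZ]
      have h4 : x - e ≤ max |x| 1 * (1 + |e|) := by
        have j1 : |x| ≤ max |x| 1 := le_max_left _ _
        have j2 : |e| * 1 ≤ |e| * max |x| 1 :=
          mul_le_mul_of_nonneg_left (le_max_right _ _) (abs_nonneg e)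
        linarith [le_abs_self x, neg_abs_le e]
      calc (x - e) / μ ≤ max |x| 1 * (1 + |e|) / μ := div_le_div_of_nonneg_right h4 hμ.le
        _ = max |x| 1 * ((1 + |e|) / μ) := by ring
        _ ≤ _ := mul_le_mul_of_nonneg_left (le_max_left _ _) h1.le
    · calc (1 : ℝ) = 1 * 1 := by ring
        _ ≤ _ := mul_le_mul (le_max_right _ _) (le_max_right _ _) one_pos.le h1.le
  have h5 : Real.log (max Z 1) ≤ Real.log (max |x| 1 * max ((1 + |e|) / μ) 1) :=
    Real.log_le_log (lt_of_lt_of_le one_pos (le_max_right _ _)) h3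
  rw [Real.log_mul h1.ne' h2.ne'] at h5
  linarith

/-- the common final step -/
lemma rx_fin (A B : ℚ) (x y : ℕ → ℚ) (h : GSeq (0 : ℚ) A B x y) (e μ ν κ C₁ C₀ : ℝ)
    (hμ : 0 < μ) (hν : 0 < ν) (hνμ : ν ^ 2 = μ ^ 3)
    (hμe : μ ^ 2 = 3 * e ^ 2 + (A : ℝ)) (hκ : |κ| ≤ 1 / 100)
    (hκ0 : κ ≠ 0) (he : 3 * |e| = (2 + κ) * μ)
    (hD : ((dsc A B : ℚ) : ℝ) = -(κ * (4 + κ)) * μ ^ 6)
    (hC : C₁ + (Real.log 5 + Real.log 100) ≤ C₀) (hC' : C₁ ≤ C₀)
    (U' : ℕ → ℝ) (τ : ℝ)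
    (h1 : ∀ k : ℕ, 1 ≤ k → 4 * U' k - C₁ ≤ U' (2 * k) + Real.log (4 * ((y (2 * k) : ℝ) / ν) ^ 2))
    (h2 : ∀ k : ℕ, 1 ≤ k → U' k ≤ Real.log (max (((x (2 * k) : ℝ) - e) / μ) 1))
    (h3 : ∀ k : ℕ, 1 ≤ k → (-Real.log |κ|) * (B2 (k * τ) - 1 / 6) - C₁ ≤ U' k) :
    ∃ (U : ℕ → ℝ) (τ : ℝ),
    (∀ k : ℕ, 1 ≤ k → Even k → 4 * U k - C₀ ≤ U (2 * k) + Real.log |((4 * cu A B (x k) : ℚ) : ℝ)|) ∧
    (∃ C : ℝ, ∀ k : ℕ, 1 ≤ k → Even k → U k ≤ Real.log (max |(x k : ℝ)| 1) + C) ∧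
    (∀ k : ℕ, 1 ≤ k → Even k → 1 / 6 * Real.log |((dsc A B : ℚ) : ℝ)|
      + max 0 (Real.log |((6912 * A ^ 3 / dsc A B : ℚ) : ℝ)|) * B2 (k * τ) - C₀ ≤ U k) := by
  refine ⟨fun k => U' (k / 2) + Real.log μ, τ / 2, ?_, ⟨Real.log (max ((1 + |e|) / μ) 1) + Real.log μ, ?_⟩, ?_⟩
  · rintro k hk ⟨j, rfl⟩
    have hj : 1 ≤ j := by omega
    have e1 : (j + j) / 2 = j := by omega
    have e2 : 2 * (j + j) / 2 = 2 * j := by omega
    beta_reduce
    rw [e1, e2, show j + j = 2 * j by ring]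
    have i1 := h1 j hj
    have i2 : cu A B (x (2 * j)) = y (2 * j) ^ 2 := by
      rw [h.curve (2 * j) (by omega)]
      unfold cu
      ring
    have i3 : (y (2 * j) : ℝ) ≠ 0 := by exact_mod_cast h.yne (2 * j) (by omega)
    have i4 : |((4 * cu A B (x (2 * j)) : ℚ) : ℝ)| = μ ^ 3 * (4 * ((y (2 * j) : ℝ) / ν) ^ 2) := by
      rw [i2]
      push_cast
      rw [abs_of_nonneg (by positivity), div_pow, hνμ]
      field_simp
    rw [i4, Real.log_mul (by positivity) (by positivity), Real.log_pow]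
    push_cast
    linarith
  · rintro k hk ⟨j, rfl⟩
    have hj : 1 ≤ j := by omega
    have e1 : (j + j) / 2 = j := by omega
    beta_reduce
    rw [e1, show j + j = 2 * j by ring]
    exact rx_up (x (2 * j) : ℝ) _ e μ hμ rfl (U' j) (h2 j hj)
  · rintro k hk ⟨j, rfl⟩
    have hj : 1 ≤ j := by omega
    have e1 : (j + j) / 2 = j := by omega
    beta_reduce
    rw [e1]
    have i1 := h3 j hj
    have i2 := rx_main (A : ℝ) e μ κ _ hμ hμe hκ hκ0 he hD (j * τ)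
    have e3 : (((j + j : ℕ) : ℝ)) * (τ / 2) = j * τ := by push_cast; ring
    have e4 : ((6912 * A ^ 3 / dsc A B : ℚ) : ℝ) = 6912 * (A : ℝ) ^ 3 / ((dsc A B : ℚ) : ℝ) := by
      push_cast
      ring
    rw [e3, e4]
    linarith

theorem st_RX (hRS : ST_RS) (hRN : ST_RN) (hR0 : ST_R0) (hRR : ST_RR) : ST_RX := by
  obtain ⟨C₁, hC₁⟩ := hRS
  obtain ⟨C₂, hC₂⟩ := hRN
  obtain ⟨J₀, hJ₀, hJ⟩ := hRR
  obtain ⟨C₃, hC₃⟩ := hR0 J₀
  have l5 : 0 ≤ Real.log 5 := Real.log_nonneg (by norm_num)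
  have l100 : 0 ≤ Real.log 100 := Real.log_nonneg (by norm_num)
  have lJ : 0 ≤ Real.log J₀ := Real.log_nonneg hJ₀
  refine ⟨|C₁| + |C₂| + |C₃| + Real.log J₀ + (Real.log 5 + Real.log 100), ?_⟩
  have a1 := le_abs_self C₁
  have a2 := le_abs_self C₂
  have a3 := le_abs_self C₃
  have b1 := abs_nonneg C₁
  have b2 := abs_nonneg C₂
  have b3 := abs_nonneg C₃
  intro A B hd x y hxy
  have hd' : ((dsc A B : ℚ) : ℝ) ≠ 0 := by exact_mod_cast hd
  have hdc : dsc (A : ℝ) (B : ℝ) = ((dsc A B : ℚ) : ℝ) := by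
    unfold dsc
    push_cast
    ring
  have hG := rx_cast A B x y hxy
  rcases le_or_gt |6912 * (A : ℝ) ^ 3| (J₀ * |dsc (A : ℝ) (B : ℝ)|) with hc | hc
  · -- bounded `j`
    obtain ⟨U, u1, ⟨C, u2⟩, u3⟩ := hC₃ (A : ℝ) (B : ℝ) (by rw [hdc]; exact hd') hc _ _ hG
    refine ⟨U, 0, ?_, ⟨C, fun k hk _ => u2 k hk⟩, ?_⟩
    · intro k hk _
      have i1 := u1 k hk
      have i2 : cu A B (x k) = y k ^ 2 := by
        rw [hxy.curve k hk]
        unfold cu
        ring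
      rw [i2]
      have i4 : |((4 * y k ^ 2 : ℚ) : ℝ)| = 4 * (y k : ℝ) ^ 2 := by
        push_cast
        exact abs_of_nonneg (by positivity)
      rw [i4]
      linarith
    · intro k hk _
      have i1 := u3 k hk
      rw [hdc] at i1
      rw [mul_zero, rx_B20]
      have i2 : max 0 (Real.log |((6912 * A ^ 3 / dsc A B : ℚ) : ℝ)|) ≤ Real.log J₀ := by
        apply max_le lJ
        have e4 : ((6912 * A ^ 3 / dsc A B : ℚ) : ℝ) = 6912 * (A : ℝ) ^ 3 / ((dsc A B : ℚ) : ℝ) := by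
          push_cast
          ring
        rw [e4, abs_div]
        have i3 : |6912 * (A : ℝ) ^ 3| / |((dsc A B : ℚ) : ℝ)| ≤ J₀ := by
          rw [div_le_iff₀ (abs_pos.mpr hd')]
          rw [hdc] at hc
          exact hc
        rcases eq_or_lt_of_le (div_nonneg (abs_nonneg (6912 * (A : ℝ) ^ 3))
          (abs_nonneg ((dsc A B : ℚ) : ℝ))) with h0 | h0
        · rw [← h0, Real.log_zero]
          exact lJ
        · exact Real.log_le_log h0 i3
      linarith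
  · obtain ⟨e, μ, κ, hμ, he0, hμe, hκ, hκ0, he, hD, hneg⟩ :=
      hJ (A : ℝ) (B : ℝ) (by rw [hdc]; exact hd') hc
    rw [hdc] at hD
    obtain ⟨ν, hνdef⟩ : ∃ ν, ν = μ * √μ := ⟨_, rfl⟩
    have hν : 0 < ν := by rw [hνdef]; positivity
    have hνμ : ν ^ 2 = μ ^ 3 := by
      rw [hνdef, mul_pow, Real.sq_sqrt hμ.le]
      ring
    have hN := rx_norm (A : ℝ) (B : ℝ) e μ ν _ _ hG hμ.ne' hν.ne' hνμ he0 hμe
    have hN2 := rx_dbl _ _ _ _ _ hN
    have hκ1 := abs_le.mp hκ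
    have he2 : 0 < |e| := by nlinarith
    have he3 : e ≠ 0 := abs_pos.mp he2
    have lk : Real.log |κ| ≤ 0 :=
      Real.log_nonpos (abs_nonneg _) (by linarith)
    rcases lt_or_gt_of_ne he3 with hs | hs
    · -- `e < 0`, split
      have ha : 3 * e / μ = -(2 + κ) := by
        rw [abs_of_neg hs] at he
        field_simp
        linarith
      rw [ha] at hN hN2
      obtain ⟨U', τ, u1, u2, u3⟩ := hC₁ κ hκ0 hκ _ _ hN2 (fun k hk => rx_pos _ _ _ hN k hk)
        (fun hκp k hk => rx_gt1 κ hκp _ _ hN k hk)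
      exact rx_fin A B x y hxy e μ ν κ C₁ _ hμ hν hνμ hμe hκ hκ0 he hD (by linarith) (by linarith)
        U' τ u1 u2 u3
    · have ha : 3 * e / μ = 2 + κ := by
        rw [abs_of_pos hs] at he
        field_simp
        linarith
      rw [ha] at hN hN2
      obtain ⟨U', u1, u2, u3⟩ := hC₂ κ hκ _ _ hN2 (fun k hk => rx_pos _ _ _ hN k hk)
      refine rx_fin A B x y hxy e μ ν κ C₂ _ hμ hν hνμ hμe hκ hκ0 he hD (by linarith) (by linarith)
        U' 0 u1 u2 ?_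
      intro k hk
      have := u3 k hk
      rw [mul_zero, rx_B20]
      linarith

end Pool.Agent.Helper42.LS
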